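import Pool.Agent.helper37.ND.SpecP

set_option autoImplicit false

namespace Pool.Agent.ND

open Pool.Agent.helper58.DC Pool.Agent.DI Pool.Agent.GR

theorem BLB_pel {p : ℕ} [Fact p.Prime] {Γ : Type} [Group Γ] (P : Sylow p Γ) (u : Γ)
    (x : Γ ⧸ (P : Subgroup Γ)) (h : u • x = x) : PEl p u := by
  induction x using QuotientGroup.induction_on with
  | H c =>
    have h1 : c⁻¹ * (u * c) ∈ (P : Subgroup Γ) := by
      have h2 : ((c : Γ) : Γ ⧸ (P : Subgroup Γ)) = ((u * c : Γ) : Γ ⧸ (P : Subgroup Γ)) := h.symm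
      exact QuotientGroup.eq.1 h2
    obtain ⟨k, hk⟩ := P.isPGroup' ⟨_, h1⟩
    refine ⟨k, ?_⟩
    have h3 : (c⁻¹ * (u * c)) ^ p ^ k = 1 := congrArg Subtype.val hk
    have h4 : c⁻¹ * (u * c) = MulAut.conj c⁻¹ u := by
      rw [MulAut.conj_apply, inv_inv, mul_assoc]
    rw [h4, ← map_pow] at h3
    exact (MulAut.conj c⁻¹).injective (by rw [h3, map_one])

theorem BLB_fix {p : ℕ} [Fact p.Prime] {Γ : Type} [Group Γ] [Finite Γ] (P : Sylow p Γ) (u : Γ)
    (hu : PEl p u) : ¬ p ∣ Nat.card {x : Γ ⧸ (P : Subgroup Γ) // u • x = x} := by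
  obtain ⟨k, hk⟩ := hu
  have hz : IsPGroup p (Subgroup.zpowers u) := by
    rintro ⟨g, hg⟩
    obtain ⟨i, rfl⟩ := Subgroup.mem_zpowers_iff.1 hg
    refine ⟨k, Subtype.ext ?_⟩
    show (u ^ i) ^ p ^ k = 1
    rw [← zpow_natCast, ← zpow_mul, mul_comm, zpow_mul, zpow_natCast, hk, one_zpow]
  have h1 := hz.card_modEq_card_fixedPoints (Γ ⧸ (P : Subgroup Γ))
  have h2 : ¬ p ∣ Nat.card (Γ ⧸ (P : Subgroup Γ)) := P.not_dvd_index
  have h3 : Nat.card (MulAction.fixedPoints (Subgroup.zpowers u) (Γ ⧸ (P : Subgroup Γ))) =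
      Nat.card {x : Γ ⧸ (P : Subgroup Γ) // u • x = x} := by
    refine Nat.card_congr (Equiv.subtypeEquivRight fun x => ?_)
    constructor
    · intro h
      exact h ⟨u, Subgroup.mem_zpowers u⟩
    · rintro h ⟨g, hg⟩
      obtain ⟨i, rfl⟩ := Subgroup.mem_zpowers_iff.1 hg
      have h4 : u ∈ MulAction.stabilizer Γ x := h
      exact (MulAction.stabilizer Γ x).zpow_mem h4 i
  rw [h3] at h1
  intro h
  exact h2 ((Nat.modEq_zero_iff_dvd).1 (h1.trans ((Nat.modEq_zero_iff_dvd).2 h)))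

open Classical in
theorem BLB_fs {Γ : Type} [Fintype Γ] (S : Set Γ) (f : Γ → ℂ) :
    ∑ᶠ u ∈ S, f u = ∑ u, if u ∈ S then f u else 0 := by
  rw [finsum_mem_def, finsum_eq_sum_of_fintype]
  rfl

theorem BLB (hBLA : BLA_stmt) : BLB_stmt := by
  classical
  intro p M hM Γ _ _ f N hcl hint hQ
  haveI : Fact p.Prime := ⟨hM.pr⟩
  haveI : Fintype Γ := Fintype.ofFinite Γ
  obtain ⟨P⟩ : Nonempty (Sylow p Γ) := inferInstance
  haveI : Fintype (Γ ⧸ (P : Subgroup Γ)) := Fintype.ofFinite _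
  have hG0 : Nat.card Γ ≠ 0 := Nat.card_pos.ne'
  obtain ⟨v, q, hq, hvq⟩ := Nat.exists_eq_pow_mul_and_not_dvd hG0 p hM.pr.ne_one
  set r : ℕ := N + v with hr
  set K : ℕ := Nat.totient (p ^ (r + 1)) with hK
  have hKpos : 0 < K := Nat.totient_pos.2 (pow_pos hM.pr.pos _)
  set n : Γ → ℕ := fun u => Nat.card {x : Γ ⧸ (P : Subgroup Γ) // u • x = x} with hn
  -- the averaged functions
  set w : (Fin K → Γ ⧸ (P : Subgroup Γ)) → ℂ := fun τ =>
    (Nat.card (MulAction.stabilizer Γ τ) : ℂ)⁻¹ * ∑ᶠ u ∈ (MulAction.stabilizer Γ τ : Set Γ), f u with hw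
  have hpel : ∀ (u : Γ) (τ : Fin K → Γ ⧸ (P : Subgroup Γ)), u • τ = τ → PEl p u := by
    intro u τ h
    exact BLB_pel P u (τ ⟨0, hKpos⟩) (congrFun h ⟨0, hKpos⟩)
  have hwinv : ∀ (g : Γ) (τ : Fin K → Γ ⧸ (P : Subgroup Γ)), w (g • τ) = w τ := by
    intro g τ
    have h1 : ∀ u, g * u * g⁻¹ ∈ MulAction.stabilizer Γ (g • τ) ↔ u ∈ MulAction.stabilizer Γ τ := by
      intro u
      rw [MulAction.mem_stabilizer_iff, MulAction.mem_stabilizer_iff, ← mul_smul, inv_mul_cancel_right,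
        mul_smul, smul_left_cancel_iff]
    have h2 : Nat.card (MulAction.stabilizer Γ (g • τ)) = Nat.card (MulAction.stabilizer Γ τ) := by
      refine (Nat.card_congr ((MulAut.conj g).toEquiv.subtypeEquiv fun u => ?_)).symm
      exact (h1 u).symm
    have h3 : ∑ᶠ u ∈ (MulAction.stabilizer Γ (g • τ) : Set Γ), f u =
        ∑ᶠ u ∈ (MulAction.stabilizer Γ τ : Set Γ), f u := by
      rw [BLB_fs, BLB_fs, ← Equiv.sum_comp (MulAut.conj g).toEquiv]
      refine Finset.sum_congr rfl fun u _ => ?_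
      have h4 : (MulAut.conj g).toEquiv u = g * u * g⁻¹ := rfl
      rw [h4, hcl]
      exact if_congr (h1 u) rfl rfl
    show (Nat.card (MulAction.stabilizer Γ (g • τ)) : ℂ)⁻¹ * _ = (Nat.card (MulAction.stabilizer Γ τ) : ℂ)⁻¹ * _
    rw [h2, h3]
  have hwint : ∀ τ, IntAt M (w τ) := by
    intro τ
    refine hQ _ ?_
    rintro ⟨u, hu⟩
    obtain ⟨k, hk⟩ := hpel u τ hu
    exact ⟨k, Subtype.ext hk⟩
  have hA := hBLA p M hM Γ (Fin K → Γ ⧸ (P : Subgroup Γ)) w hwinv hwint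
  -- the main term
  have hB : ∑ᶠ τ : Fin K → Γ ⧸ (P : Subgroup Γ), (Nat.card (MulAction.stabilizer Γ τ) : ℂ) * w τ =
      ∑ u : Γ, if PEl p u then f u * (n u : ℂ) ^ K else 0 := by
    rw [finsum_eq_sum_of_fintype]
    have h1 : ∀ τ : Fin K → Γ ⧸ (P : Subgroup Γ), (Nat.card (MulAction.stabilizer Γ τ) : ℂ) * w τ =
        ∑ u : Γ, if u • τ = τ then f u else 0 := by
      intro τ
      have h2 : (Nat.card (MulAction.stabilizer Γ τ) : ℂ) ≠ 0 := by
        exact_mod_cast Nat.card_pos.ne'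
      rw [hw]
      simp only
      rw [mul_inv_cancel_left₀ h2, BLB_fs]
      exact Finset.sum_congr rfl fun u _ => if_congr Iff.rfl rfl rfl
    rw [Finset.sum_congr rfl fun τ _ => h1 τ, Finset.sum_comm]
    refine Finset.sum_congr rfl fun u _ => ?_
    rw [← Finset.sum_filter, Finset.sum_const, nsmul_eq_mul]
    have h3 : (Finset.univ.filter fun τ : Fin K → Γ ⧸ (P : Subgroup Γ) => u • τ = τ).card = n u ^ K := by
      have h4 : Nat.card {τ : Fin K → Γ ⧸ (P : Subgroup Γ) // ∀ i, u • τ i = τ i} = n u ^ K := by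
        rw [Nat.card_congr (Equiv.subtypePiEquivPi (p := fun (_ : Fin K) (x : Γ ⧸ (P : Subgroup Γ)) => u • x = x)),
          Nat.card_fun, Nat.card_fin]
      rw [← h4, Nat.card_eq_fintype_card, Fintype.card_subtype]
      refine congrArg Finset.card (Finset.filter_congr fun τ _ => ?_)
      constructor
      · intro h i
        exact congrFun h i
      · intro h
        exact funext h
    by_cases hu : PEl p u
    · rw [if_pos hu, h3]
      push_cast
      ring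
    · rw [if_neg hu]
      have h5 : (Finset.univ.filter fun τ : Fin K → Γ ⧸ (P : Subgroup Γ) => u • τ = τ) = ∅ := by
        rw [Finset.filter_eq_empty_iff]
        intro τ _ h
        exact hu (hpel u τ h)
      rw [h5, Finset.card_empty]
      simp
  rw [hB] at hA
  -- the error term
  have hqM : IntAt M ((q : ℂ)⁻¹) := (IntAt.natCast hM q).inv hM fun h => hq ((InM.natCast hM q).1 h)
  have hC : IntAt M (∑ u : Γ, if PEl p u then (Nat.card Γ : ℂ)⁻¹ * (f u * ((n u : ℂ) ^ K - 1)) else 0) := by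
    refine IntAt.sum hM _ fun u _ => ?_
    by_cases hu : PEl p u
    · rw [if_pos hu]
      have h1 : (n u).Coprime (p ^ (r + 1)) := by
        refine Nat.Coprime.pow_right _ ?_
        exact ((Nat.Prime.coprime_iff_not_dvd hM.pr).2 (BLB_fix P u hu)).symm
      have h2 : n u ^ K ≡ 1 [MOD p ^ (r + 1)] := Nat.ModEq.pow_totient h1
      have h3 : ((p ^ (r + 1) : ℕ) : ℤ) ∣ ((n u ^ K : ℕ) : ℤ) - ((1 : ℕ) : ℤ) := by
        exact (Nat.modEq_iff_dvd.1 h2.symm)
      obtain ⟨t, ht⟩ := h3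
      have h4 : (n u : ℂ) ^ K - 1 = (p : ℂ) ^ (r + 1) * (t : ℂ) := by
        have := congrArg (Int.cast : ℤ → ℂ) ht
        push_cast at this
        exact this
      have h5 : (Nat.card Γ : ℂ)⁻¹ * (f u * ((n u : ℂ) ^ K - 1)) =
          (q : ℂ)⁻¹ * ((p : ℂ) ^ N * f u) * ((p : ℂ) * (t : ℂ)) := by
        rw [h4, hvq]
        push_cast
        have h6 : (p : ℂ) ≠ 0 := hM.p_ne
        have h7 : (p : ℂ) ^ (r + 1) = (p : ℂ) ^ N * (p : ℂ) ^ v * p := by
          rw [hr, pow_succ, pow_add]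
        rw [h7, mul_inv]
        have h8 : ((p : ℂ) ^ v)⁻¹ * (p : ℂ) ^ v = 1 := inv_mul_cancel₀ (pow_ne_zero _ h6)
        linear_combination ((q : ℂ)⁻¹ * ((p : ℂ) ^ N * f u) * ((p : ℂ) * (t : ℂ))) * h8
      rw [h5]
      refine (hqM.mul hM (hint u)).mul hM ((IntAt.natCast hM p).mul hM ?_)
      exact IntAt.of_isIntegral hM (isIntegral_algebraMap (R := ℤ) (A := ℂ) (x := t))
    · rw [if_neg hu]
      exact IntAt.zero hM
  have hD : (Nat.card Γ : ℂ)⁻¹ * ∑ᶠ u ∈ {u : Γ | PEl p u}, f u =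
      (Nat.card Γ : ℂ)⁻¹ * (∑ u : Γ, if PEl p u then f u * (n u : ℂ) ^ K else 0) -
        ∑ u : Γ, if PEl p u then (Nat.card Γ : ℂ)⁻¹ * (f u * ((n u : ℂ) ^ K - 1)) else 0 := by
    rw [BLB_fs, Finset.mul_sum, Finset.mul_sum, ← Finset.sum_sub_distrib]
    refine Finset.sum_congr rfl fun u _ => ?_
    by_cases hu : PEl p u
    · rw [if_pos hu, if_pos hu, if_pos (show u ∈ {u : Γ | PEl p u} from hu)]
      ring
    · rw [if_neg hu, if_neg hu, if_neg (show ¬ u ∈ {u : Γ | PEl p u} from hu)]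
      ring
  rw [hD]
  exact hA.sub hM hC

end Pool.Agent.ND
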